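import Mathlib
import Pool.Agent.K7.H36.CN.Game
import Pool.Agent.K7.H35.CN_GUESS
import Pool.Agent.K7.H50.CN_UP
import Pool.Agent.K7.H50.CN_DBL
import Pool.Agent.K7.H15.CN_SPACE
import Pool.Agent.K7.H3.CN_NECK

set_option autoImplicit false

/-!
# A doubling game space with infinite cop number

There is a compact geodesic metric space `X` with finite doubling constant on which, for every `k`, the
robber wins against `k` cops: `c(X) = ∞`. This answers Q1 of MP_f04f62_co in the negative.

The definitions (in `Pool.Agent.K7.H36.CN.Defs`):
* `IsGeodesicSpace X`: any two points are joined by a path whose length is their distance;
* `IsDoubling X K`: every open ball of radius `r` is covered by at most `K` open balls of radius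
  `r / 2` (centres in `X`);
* `RobberStrategy X k`: starting positions of the `k` cops, an agility function `τ > 0` with
  `∑ τ (n + 1) = ∞`, and the robber's positions: the `n`-th one is a function of the positions
  `c 0, …, c (n - 1)` of the cops, and his moves are legal in every play of the cops
  (`IsCopPlay`: the cops start at `start` and in step `n + 1` each moves by at most `τ (n + 1)`);
* `S.Wins`: against every play of the cops the distances between the robber and the cops are bounded
  below by a positive constant (so the value of the game is positive).

The space: for every number `S` of levels a periodic network of sheets, where the digits of a sheet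
can be changed only at switches, whose heights depend on the other digits, in opposite orders for the
two digits of a block; small copies of these networks are attached to a segment. The robber always
moves up and chooses the digits by a potential function.
-/

namespace Pool.Agent.Results.MP_f04f62_co.DoublingInfiniteCopNumber

open Pool.Agent.K7.H36.CN

/-- **A compact geodesic doubling metric space with infinite cop number.** -/
theorem result : ∃ (X : Type) (_ : MetricSpace X), CompactSpace X ∧ IsGeodesicSpace X ∧
    (∃ K : ℕ, IsDoubling X K) ∧ ∀ k : ℕ, ∃ S : RobberStrategy X k, S.Wins :=
  Pool.Agent.K7.H3.CN.neck (Pool.Agent.K7.H15.CN.space Pool.Agent.K7.H50.CN.stUp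
    Pool.Agent.K7.H50.CN.stDbl (raw Pool.Agent.K7.H35.CN.stGuess Pool.Agent.K7.H50.CN.stUp))

end Pool.Agent.Results.MP_f04f62_co.DoublingInfiniteCopNumber
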